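import Pool.Agent.X159.TZ.Loc

set_option autoImplicit false

/-! # The monodromy conjecture for local topological zeta functions: reduction to cubics

We prove that the monodromy conjecture for the LOCAL topological zeta functions of all polynomials
`f` at all their zeros `x`, of all degrees and in all numbers of variables, is EQUIVALENT to the same
statement for the cubic polynomials `x_0 + ∑_j t_j q_j(x)`, `q_j` of degree at most two, at their zeros;
all polynomials may have coefficients in a given subfield `k` of `ℂ`. By the theorem of Malgrange and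
Kashiwara the eigenvalues of the monodromy of `f` at the points near `x` are the numbers
`exp(2 π i r)`, `r` a root of the local Bernstein-Sato polynomial of `f` at `x`.

Method. Every polynomial `f` becomes such a cubic by adding products `y_i z_i` of new variables and an
automorphism of the polynomial ring. The local topological zeta function of
`F = f + y_1 z_1 + ⋯ + y_κ z_κ` at `(x, 0)` is
`Z_F(s) = (κ + s (s + κ + 1) Z_f(s + κ)) / ((s + 1) (s + κ))` (`stpK 1 κ Z`), proved from the classes of
the sets of jets in the Grothendieck ring, without resolution of singularities; and a local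
functional equation of `f` with `b(s) = (s + 1) c(s)` gives one of `F` with `(s + 1) c(s + κ)`.

As in the starting files the local topological zeta function is defined, as by Denef and Loeser,
from the local motivic zeta function `Z_mot(T) = ∑_d [X_d] 𝕃 ^ (-n d) T ^ d`, `X_d` the `d`-jets with
origin `x` on which `f` has the order `d` (`zetaM f {pt ℂ x} {c | c ≠ 0}`):
`Z_top(s) = χ(Z_mot(𝕃 ^ (-s)))` for `s = 1, 2, 3, …` (`IsTopZeta E ε`), `E` a homomorphism from the
Grothendieck ring localised at `𝕃` to a domain with `E(𝕃) ≠ 1`, such as the Hodge-Deligne polynomial,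
and `ε ∘ E` the Euler characteristic. The germ of `f` at `x` is the one of `trans x f = f(· + x)` at the
origin. -/

namespace Pool.Agent.Results.MP_aa7fc1_ag.CubicsLocalWeak

open MvPolynomial Pool.Agent.W428.MOT Pool.Agent.TH192.MU Pool.Agent.X159.TZ
open Pool.Agent.TH192.MT (zetaM)
open Pool.Agent.H628R4.TP (IsLocalBFunction)
open Pool.Agent.Y229.MS (itr)
open Pool.Agent.X271.RD (cubic pt trans)

/-- The monodromy conjecture for the local topological zeta function of `f` at `x`: for every pole `s₀` of
the local topological zeta function `Z` of `f` at `x` and every `b` which satisfies a functional equation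
`b(s) f ^ s = P(s) f ^ (s + 1)` at `x`, `P(s)` a differential operator with formal power series
coefficients, in particular the local Bernstein-Sato polynomial, `exp(2 π i s₀) = exp(2 π i r)` for a
root `r` of `b`. -/
def WeakAt {R : Type} [CommRing R] (E : MK ℂ →+* R) (ε : R →+* ℂ) {n : ℕ}
    (f : MvPolynomial (Fin n) ℂ) (x : Fin n → ℂ) : Prop :=
  ∀ Z : RatFunc ℂ, IsTopZeta E ε (zetaM f {pt ℂ x} {c | c ≠ 0}) Z →
    ∀ b : Polynomial ℂ, IsLocalBFunction (trans x f) b → ∀ s₀ : ℂ, Z.denom.eval s₀ = 0 →
      ∃ r : ℂ, b.eval r = 0 ∧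
        Complex.exp (2 * Real.pi * Complex.I * s₀) = Complex.exp (2 * Real.pi * Complex.I * r)

/-- **Reduction of the monodromy conjecture for local topological zeta functions to cubics.**

(1) The conjecture holds for all `f ≠ 0` over the subfield `k` of `ℂ` at all complex zeros of `f` if and
only if it holds for all cubics `x_0 + ∑_j t_j q_j(x)` over `k` with `q_j` of degree at most two, at all
their complex zeros.

(2) If `f(x) = 0`, `f ≠ 0`, and `Φ` is an isomorphism of polynomial rings, `F` the image of
`f + ∑_{i < κ} y_i z_i` (`itr f κ`) under `Φ` and `x'` the image of the point `(x, 0)`, and the conjecture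
holds for `F` at `x'`, then it holds for `f` at `x`.

(3) If `Z` is the local topological zeta function of `f` at the zero `x`, then the one of
`f + ∑_{i < κ} y_i z_i` at `(x, 0)` is `(κ + s (s + κ + 1) Z(s + κ)) / ((s + 1) (s + κ))`. -/
theorem result (R : Type) [CommRing R] [IsDomain R] (E : MK ℂ →+* R) (ε : R →+* ℂ)
    (hε : ε (E ((Lu ℂ : (MK ℂ)ˣ) : MK ℂ)) = 1) (hE : E ((Lu ℂ : (MK ℂ)ˣ) : MK ℂ) ≠ 1) :
    (∀ (k : Type) [Field k] [Algebra k ℂ],
      (∀ (n : ℕ) (f : MvPolynomial (Fin n) k), f ≠ 0 → ∀ x : Fin n → ℂ,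
        eval x (map (algebraMap k ℂ) f) = 0 → WeakAt E ε (map (algebraMap k ℂ) f) x) ↔
      ∀ (n l : ℕ) (q : Fin l → MvPolynomial (Fin (n + 1)) k), (∀ j, (q j).totalDegree ≤ 2) →
        ∀ x : Fin (n + 1 + l) → ℂ, eval x (map (algebraMap k ℂ) (cubic q)) = 0 →
          WeakAt E ε (map (algebraMap k ℂ) (cubic q)) x) ∧
    ∀ (n : ℕ) (f : MvPolynomial (Fin n) ℂ), f ≠ 0 → ∀ x : Fin n → ℂ, eval x f = 0 → ∀ κ : ℕ,
      (∀ m : ℕ, n + 2 * κ = m →
        ∀ Φ : MvPolynomial (Fin (n + 2 * κ)) ℂ ≃ₐ[ℂ] MvPolynomial (Fin m) ℂ,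
          WeakAt E ε (Φ (itr f κ)) (imP Φ (exI x κ)) → WeakAt E ε f x) ∧
      ∀ Z : RatFunc ℂ, IsTopZeta E ε (zetaM f {pt ℂ x} {c | c ≠ 0}) Z →
        IsTopZeta E ε (zetaM (itr f κ) {pt ℂ (exI x κ)} {c | c ≠ 0}) (stpK 1 κ Z) := by
  refine ⟨fun k _ _ => ?_, fun n f hf x hx κ => ⟨fun m hm Φ h => ?_, fun Z hZ => ?_⟩⟩
  · exact cubicsL hε hE (fun κ _ => desc_weak κ) k
  · exact transferL hε hE (desc_weak κ) hf hx hm Φ h
  · rw [zetaM_eq] at hZ ⊢
    exact top_itrL hε hE hx hZ κ

end Pool.Agent.Results.MP_aa7fc1_ag.CubicsLocalWeak
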