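import Pool.Agent.TH192.MU.TopZ

set_option autoImplicit false

/-! # The monodromy conjecture for the local topological zeta functions of products of powers of
# forms over determinantal ideals

Let `x` be the generic matrix of one of the three spaces `S` of matrices: all `m × n` matrices, the
symmetric `n × n` matrices, the skew symmetric `n × n` matrices (`MSpace`). For `t < T` let
`F_t = ∑_j y_{t,j} M_j(x)`, where the `M_j` are the `p t`-minors of `x` (the Pfaffians of size
`2 (p t)` in the skew symmetric case), `p t < min (m, n)`, `p t < n`, or `2 (p t) + 1 < n`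
(`Small`), and the `y_{t,j}` are further variables, separate for each `t`. Let
`f = ∏ t, F_t ^ a t`, `a t > 0` (`detForm`, with integral coefficients).

The local topological zeta function is defined as by Denef and Loeser, from the local motivic zeta
function `Z_mot(T) = ∑_d [X_d] 𝕃 ^ (-n d) T ^ d` in `𝓜[[T]]`, `X_d` the `d`-jets with origin `0` on which `f` has
the order `d` (`zetaM f {0} {c | c ≠ 0}`), `𝓜` the Grothendieck ring of complex varieties, localised at
`𝕃`: `Z_top(s) = χ(Z_mot(𝕃 ^ (-s)))` for `s = 1, 2, 3, …`. For this, let `E` be a homomorphism from `𝓜` to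
a domain `R` with `E(𝕃) ≠ 1`, such as the Hodge-Deligne polynomial `E(u, v)`, and `ε` a homomorphism
from `R` to `ℂ` with `ε(E(𝕃)) = 1`, such as `u, v ↦ 1`, so that `ε ∘ E` is the Euler characteristic `χ`
(`IsTopZeta`).

No resolution is used: the motivic zeta function is in the ring generated by `T` and the
`(𝕃 - 1) / (1 - 𝕃 ^ (-ν) T ^ N)`, where the pairs `(-ν, N)` are the `(-ν_d, N_d)` and `(-1, a t)`
(`formPairs`), `ν_d` the codimension of the matrices of rank `≤ d` (`≤ 2 d`),
`N_d = ∑ t, a t max (p t - d, 0)`. The factors `𝕃 - 1` come from the scaling of the matrices and forms.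

The proof for the roots: a functional equation of `f` gives a functional equation of the product of
the powers `I_t ^ a t` of the ideals of the minors, with the same `b` (`locEq_of_powProd`; for one
form and `a = 1` this is one direction of a theorem of Mustata, 2019), and the exceptional divisors
over the rank loci are Rees divisors of this ideal; the roots `-1 / a t` come from the strict
transforms (`strict_root`). -/

namespace Pool.Agent.Results.MP_aa7fc1_ag.DeterminantalLocal

open MvPolynomial Pool.Agent.H628R4.TP Pool.Agent.TH192.DT Pool.Agent.TH192.MT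
  Pool.Agent.TH192.MU Pool.Agent.W428.MOT

/-- **The monodromy conjecture for the local topological zeta function of `f = ∏ t, F_t ^ a t` at the
origin**, `F_t` the forms with the minors of size `p t` of a generic, symmetric or skew
symmetric matrix as coefficients, `a t > 0`. There is exactly one rational function `Z` with
`Z(s) = ε(E(Z_mot(𝕃 ^ (-s))))` for `s = 1, 2, 3, …`; each of its poles is one of the `-ν_d / N_d` or
`-1 / a t`, and is a root of every `b` which satisfies a functional equation
`b(s) f ^ s = P(s) f ^ (s + 1)`, where `P(s)` is a differential operator with formal power series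
coefficients at the origin, in particular of the local Bernstein-Sato polynomial of `f`. By the
theorem of Malgrange and Kashiwara, `exp(2 π i s₀)` is then a monodromy eigenvalue of `f` at points
near the origin. -/
theorem result (S : MSpace) (T : ℕ) (p a : Fin T → ℕ) (hp : ∀ t, S.Small (p t))
    (ha : ∀ t, 0 < a t) (R : Type) [CommRing R] [IsDomain R] (E : MK ℂ →+* R) (ε : R →+* ℂ)
    (hε : ε (E ((Lu ℂ : (MK ℂ)ˣ) : MK ℂ)) = 1) (hE : E ((Lu ℂ : (MK ℂ)ˣ) : MK ℂ) ≠ 1) :
    ∃ Z : RatFunc ℂ,
      IsTopZeta E ε (zetaM (map (Int.castRingHom ℂ) (detForm S p a)) {0} {c | c ≠ 0}) Z ∧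
      (∀ Z', IsTopZeta E ε
        (zetaM (map (Int.castRingHom ℂ) (detForm S p a)) {0} {c | c ≠ 0}) Z' → Z' = Z) ∧
      ∀ s₀ : ℂ, Z.denom.eval s₀ = 0 →
        (∃ q ∈ formPairs S p a, s₀ = (q.1 : ℂ) / q.2) ∧
        ∀ b : Polynomial ℂ, IsLocalBFunction (map (Int.castRingHom ℂ) (detForm S p a)) b →
          b.eval s₀ = 0 := by
  obtain ⟨Z, h1, h2, h3⟩ := form_top S T p a hp ha constr_zero E ε hε hE
  refine ⟨Z, h1, h2, fun s₀ hs => ?_⟩
  obtain ⟨q, hq, rfl⟩ := h3 s₀ hs
  exact ⟨⟨q, hq, rfl⟩, (form_roots S T p a hp ha q hq).2.2.2⟩

end Pool.Agent.Results.MP_aa7fc1_ag.DeterminantalLocal
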